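import Pool.Agent.Helper41.PS.Goals

/-!
# Project PS (MP_74f661_nt), packet MOM: moments of the sieve bounds
-/

set_option autoImplicit false

open Finset

open scoped Classical

namespace Pool.Agent.Helper76.PS.MOM

open Pool.Agent.Helper41.PS

lemma ww_nonneg (K t : ℕ) : 0 ≤ ww K t :=
  Finset.prod_nonneg fun p _ => by positivity

lemma WW_nonneg (K : ℕ) (E : Finset ℕ) : 0 ≤ WW K E :=
  Finset.prod_nonneg fun _ _ => Finset.prod_nonneg fun _ _ => ww_nonneg _ _

lemma card_EE (m L h : ℕ) (D : Finset ℕ) (hD : D ∈ DD m L) (hN : ND D h) :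
    (EE D h).card = 2 * m + 2 := by
  unfold DD at hD
  rw [mem_powersetCard] at hD
  have h0 : (0 : ℕ) ∉ D := fun h => by
    have := (mem_Icc.1 (hD.1 h)).1
    omega
  have h1 : (insert 0 D).card = m + 1 := by rw [card_insert_of_notMem h0, hD.2]
  unfold EE
  rw [card_union_of_disjoint hN, card_image_of_injective _ (add_left_injective h), h1]
  ring

lemma card_DD (m L : ℕ) : ((DD m L).card : ℝ) ≤ (L : ℝ) ^ m := by
  unfold DD
  rw [card_powersetCard, Nat.card_Icc, Nat.add_sub_cancel]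
  exact_mod_cast Nat.choose_le_pow L m

lemma inner_le_card {ι : Type} {j : ℕ} (s : Finset ι) (f : ι → ℝ) (hf : ∀ i ∈ s, 0 ≤ f i) :
    (∑ i ∈ s, f i) ^ (j + 1) ≤ (s.card : ℝ) ^ j * ∑ i ∈ s, f i ^ (j + 1) := by
  rcases s.eq_empty_or_nonempty with h | h
  · rw [h]
    simp
  · have h1 := pow_sum_div_card_le_sum_pow (s := s) (f := f) hf j
    have h2 : (0 : ℝ) < (s.card : ℝ) ^ j := by
      have : 0 < s.card := card_pos.2 h
      positivity
    rw [div_le_iff₀ h2] at h1
    linarith [mul_comm ((s.card : ℝ) ^ j) (∑ i ∈ s, f i ^ (j + 1))]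

theorem t (h1 : StmtSV2) (h2 : StmtAV2) : StmtMOM := by
  intro m J
  obtain ⟨C1, hC1, x0, hx0⟩ := h1 (2 * m + 2)
  obtain ⟨C2, hC2, hav⟩ := h2 m (2 * (2 * m + 2)) J
  rcases Nat.eq_zero_or_pos J with hJ | hJ
  · refine ⟨1, le_rfl, 0, fun x L N _ _ => ?_⟩
    rw [hJ]
    simp only [pow_zero, sum_const, Nat.card_Icc, Nat.add_sub_cancel, nsmul_eq_mul, mul_one,
      one_mul]
    have : (0 : ℝ) ≤ L := Nat.cast_nonneg L
    linarith
  · obtain ⟨j, rfl⟩ : ∃ j, J = j + 1 := ⟨J - 1, by omega⟩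
    refine ⟨C1 ^ (j + 1) * C2, one_le_mul_of_one_le_of_one_le (one_le_pow₀ hC1) hC2,
      max x0 3, fun x L N hx hL => ?_⟩
    have hx1 : x0 ≤ x := (le_max_left _ _).trans hx
    have hx3 : 3 ≤ x := (le_max_right _ _).trans hx
    have hlog : 0 < Real.log x := Real.log_pos (by exact_mod_cast (by omega : 1 < x))
    have hLr : (0 : ℝ) < (L : ℝ) := by exact_mod_cast hL
    obtain ⟨g, hg⟩ : ∃ g : ℝ, g = C1 * (x / Real.log x ^ (2 * m + 2)) := ⟨_, rfl⟩
    have hg0 : 0 ≤ g := by rw [hg]; positivity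
    obtain ⟨w, hw⟩ : ∃ w : ℕ → Finset ℕ → ℝ, w = fun h D => WW (2 * (2 * m + 2)) (EE D h) :=
      ⟨_, rfl⟩
    have hw0 : ∀ h D, 0 ≤ w h D := fun h D => by rw [hw]; exact WW_nonneg _ _
    have key : ∀ h, UU m x L h ^ (j + 1) ≤
        g ^ (j + 1) * (((L : ℝ) ^ m) ^ j *
          ∑ D ∈ (DD m L).filter (fun D => ND D h), w h D ^ (j + 1)) := by
      intro h
      have h3 : UU m x L h ≤ g * ∑ D ∈ (DD m L).filter (fun D => ND D h), w h D := by
        unfold UU
        rw [mul_sum]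
        refine sum_le_sum fun D hD => ?_
        rw [mem_filter] at hD
        rw [hg, hw]
        exact hx0 x hx1 (EE D h) (card_EE m L h D hD.1 hD.2)
      have h4 : 0 ≤ UU m x L h := by
        unfold UU
        exact sum_nonneg fun D _ => by unfold NN; positivity
      have h5 := pow_le_pow_left₀ h4 h3 (j + 1)
      refine h5.trans ?_
      rw [mul_pow]
      refine mul_le_mul_of_nonneg_left ?_ (pow_nonneg hg0 _)
      have h6 := inner_le_card (j := j) ((DD m L).filter (fun D => ND D h)) (w h)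
        (fun D _ => hw0 h D)
      refine h6.trans (mul_le_mul_of_nonneg_right ?_ (sum_nonneg fun D _ => pow_nonneg (hw0 h D) _))
      refine pow_le_pow_left₀ (Nat.cast_nonneg _) ?_ j
      refine le_trans ?_ (card_DD m L)
      exact_mod_cast card_le_card (filter_subset _ _)
    calc ∑ h ∈ Icc 1 N, UU m x L h ^ (j + 1)
        ≤ ∑ h ∈ Icc 1 N, g ^ (j + 1) * (((L : ℝ) ^ m) ^ j *
          ∑ D ∈ (DD m L).filter (fun D => ND D h), w h D ^ (j + 1)) :=
          sum_le_sum fun h _ => key h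
      _ = g ^ (j + 1) * (((L : ℝ) ^ m) ^ j *
          ∑ h ∈ Icc 1 N, ∑ D ∈ (DD m L).filter (fun D => ND D h), w h D ^ (j + 1)) := by
          rw [← mul_sum, ← mul_sum]
      _ ≤ g ^ (j + 1) * (((L : ℝ) ^ m) ^ j * (C2 * ((N : ℝ) + L) * (L : ℝ) ^ m)) := by
          refine mul_le_mul_of_nonneg_left (mul_le_mul_of_nonneg_left ?_ (by positivity))
            (pow_nonneg hg0 _)
          rw [hw]
          exact hav L N hL
      _ = C1 ^ (j + 1) * C2 * ((N : ℝ) + L) * gs m x L ^ (j + 1) := by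
          rw [hg]
          unfold gs
          rw [mul_pow, div_pow, div_pow, mul_pow]
          ring

end Pool.Agent.Helper76.PS.MOM
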